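import Pool.Agent.Y461.FU.Main

/-!
# MP_b8a914_gt: under the continuum hypothesis there is a Menger (Hurewicz) space `X` such that the
sequential fan embeds in `C_p(X)`
-/

set_option autoImplicit false

namespace Pool.Agent.Results.MP_b8a914_gt.ContinuumHypothesis

open Pool.Agent.Y461.FU

/-- Under the continuum hypothesis there is a subspace `X` of the Baire space with the Hurewicz
property of the problem (every sequence of open covers has finite subfamilies which together cover
`X`), such that the sequential fan embeds in `C_p(X)`. -/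
theorem result (hCH : Cardinal.continuum.{0} = Cardinal.aleph 1) :
    ∃ X : Set (ℕ → ℕ), T35Space X ∧
      (∀ U : ℕ → Set (Set X), (∀ n, ∀ u ∈ U n, IsOpen u) → (∀ n, ⋃₀ U n = Set.univ) →
        ∃ V : ℕ → Set (Set X), (∀ n, V n ⊆ U n ∧ (V n).Finite) ∧ (⋃ n, ⋃₀ V n) = Set.univ) ∧
      ∃ f : Quot (fun p q : ℕ × OnePoint ℕ =>
              p = q ∨ (p.2 = OnePoint.infty ∧ q.2 = OnePoint.infty)) →
            {g : X → ℝ // Continuous g},
        Topology.IsEmbedding f := by
  obtain ⟨L, hne, h1, h2⟩ := lusin hCH
  exact ⟨L, inferInstance, fun U hU hc => menger L hne h1 U hU hc, F L, embed L h2⟩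

end Pool.Agent.Results.MP_b8a914_gt.ContinuumHypothesis
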